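import Pool.Agent.Y740.Z.Stm

/-!
# The Frobenius estimate for the product of the differences (project ZF)
-/

set_option autoImplicit false
set_option linter.all false

namespace Pool.Agent.Y261.ZF

open Polynomial NumberField Module Finset

section ultra
variable {W : Type} [Field W] [NumberField W]

theorem na (v : FinitePlace W) (x y : W) : v (x + y) ≤ max (v x) (v y) := by
  rw [← FinitePlace.norm_embedding_eq v (x + y), ← FinitePlace.norm_embedding_eq v x,
    ← FinitePlace.norm_embedding_eq v y, FinitePlace.norm_embedding, FinitePlace.norm_embedding,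
    FinitePlace.norm_embedding]
  exact HeightOneSpectrum.adicAbv_add_le_max _ _ _ _

theorem na_sub (v : FinitePlace W) (x y : W) : v (x - y) ≤ max (v x) (v y) := by
  rw [sub_eq_add_neg]
  refine (na v x (-y)).trans ?_
  rw [map_neg_eq_map]

theorem na_nat (v : FinitePlace W) (n : ℕ) : v (n : W) ≤ 1 := by
  induction n with
  | zero => simp
  | succ n ih =>
    push_cast
    refine (na v _ _).trans (max_le ih ?_)
    rw [map_one]

theorem na_sum (v : FinitePlace W) {κ : Type*} (s : Finset κ) (f : κ → W) {B : ℝ} (hB : 0 ≤ B)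
    (h : ∀ i ∈ s, v (f i) ≤ B) : v (∑ i ∈ s, f i) ≤ B := by
  classical
  induction s using Finset.induction_on with
  | empty => rw [sum_empty, map_zero]; exact hB
  | insert a s ha ih =>
    rw [sum_insert ha]
    exact (na v _ _).trans (max_le (h a (mem_insert_self a s))
      (ih fun i hi => h i (mem_insert_of_mem hi)))

theorem binom (v : FinitePlace W) {p : ℕ} (hp : p.Prime) (x y : W) {B : ℝ} (hx : v x ≤ B)
    (hy : v y ≤ B) : v ((x + y) ^ p - x ^ p - y ^ p) ≤ v (p : W) * B ^ p := by
  have hB : 0 ≤ B := (apply_nonneg v x).trans hx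
  have e : (x + y) ^ p - x ^ p - y ^ p =
      ∑ i ∈ Ico 1 p, x ^ i * y ^ (p - i) * ((p.choose i : ℕ) : W) := by
    rw [add_pow, sum_range_succ, ← Nat.Ico_zero_eq_range, ← sum_Ioo_add_eq_sum_Ico hp.pos]
    have h1 : Ioo 0 p = Ico 1 p := by
      ext i
      rw [mem_Ioo, mem_Ico]
      omega
    rw [h1]
    simp
  rw [e]
  refine na_sum v _ _ (mul_nonneg (apply_nonneg v _) (by positivity)) fun i hi => ?_
  rw [mem_Ico] at hi
  obtain ⟨k, hk⟩ := hp.dvd_choose_self (by omega) hi.2
  rw [hk]
  push_cast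
  rw [map_mul, map_mul, map_mul, map_pow, map_pow]
  have h1 : v x ^ i * v y ^ (p - i) ≤ B ^ p := by
    calc v x ^ i * v y ^ (p - i) ≤ B ^ i * B ^ (p - i) := by
          have := apply_nonneg v x
          have := apply_nonneg v y
          gcongr
      _ = B ^ p := by rw [← pow_add]; congr 1; omega
  have h2 := na_nat v k
  have h3 := apply_nonneg v (k : W)
  have h4 := apply_nonneg v (p : W)
  calc v x ^ i * v y ^ (p - i) * (v (p : W) * v (k : W)) ≤ B ^ p * (v (p : W) * 1) := by
        apply mul_le_mul h1 (mul_le_mul_of_nonneg_left h2 h4) (mul_nonneg h4 h3) (by positivity)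
    _ = _ := by ring

theorem multi (v : FinitePlace W) {p : ℕ} (hp : p.Prime) {κ : Type*} (s : Finset κ) (a : κ → W)
    {B : ℝ} (hB : 0 ≤ B) (h : ∀ i ∈ s, v (a i) ≤ B) :
    v ((∑ i ∈ s, a i) ^ p - ∑ i ∈ s, a i ^ p) ≤ v (p : W) * B ^ p := by
  classical
  induction s using Finset.induction_on with
  | empty =>
    rw [sum_empty, sum_empty, zero_pow hp.ne_zero, sub_zero, map_zero]
    exact mul_nonneg (apply_nonneg v _) (by positivity)
  | insert j s hj ih =>
    rw [sum_insert hj, sum_insert hj]
    have h1 := ih fun i hi => h i (mem_insert_of_mem hi)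
    have h2 := binom v hp (a j) (∑ i ∈ s, a i) (h j (mem_insert_self j s))
      (na_sum v s a hB fun i hi => h i (mem_insert_of_mem hi))
    have e : (a j + ∑ i ∈ s, a i) ^ p - (a j ^ p + ∑ i ∈ s, a i ^ p) =
        ((a j + ∑ i ∈ s, a i) ^ p - a j ^ p - (∑ i ∈ s, a i) ^ p) +
          ((∑ i ∈ s, a i) ^ p - ∑ i ∈ s, a i ^ p) := by ring
    rw [e]
    exact (na v _ _).trans (max_le h2 h1)

theorem coeff_le (v : FinitePlace W) {κ : Type*} (s : Finset κ) (α : κ → W) (k : ℕ) :
    v ((∏ j ∈ s, (X - C (α j)) : W[X]).coeff k) ≤ ∏ j ∈ s, max 1 (v (α j)) := by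
  classical
  induction s using Finset.induction_on generalizing k with
  | empty =>
    rw [prod_empty, prod_empty, coeff_one]
    split_ifs
    · rw [map_one]
    · rw [map_zero]; exact zero_le_one
  | insert a s ha ih =>
    rw [prod_insert ha, prod_insert ha, sub_mul, coeff_sub, coeff_C_mul]
    have hP : 0 ≤ ∏ j ∈ s, max 1 (v (α j)) := prod_nonneg fun _ _ => le_max_of_le_left zero_le_one
    refine (na_sub v _ _).trans (max_le ?_ ?_)
    · cases k with
      | zero =>
        rw [coeff_X_mul_zero, map_zero]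
        exact mul_nonneg (le_max_of_le_left zero_le_one) hP
      | succ k =>
        rw [coeff_X_mul]
        exact (ih k).trans (le_mul_of_one_le_left hP (le_max_left _ _))
    · rw [map_mul]
      exact mul_le_mul (le_max_right _ _) (ih k) (apply_nonneg v _) (le_max_of_le_left zero_le_one)

end ultra

theorem symm_mem {W : Type} [Field W] [NumberField W] {ζ : W} (φ : W ≃ₐ[ℚ] W) {p : ℕ}
    (h : φ ζ = ζ ^ p) {x : W} (hx : x ∈ IntermediateField.adjoin ℚ {ζ}) :
    φ.symm x ∈ IntermediateField.adjoin ℚ {ζ} := by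
  set F := IntermediateField.adjoin ℚ {ζ} with hF
  have h1 : F.map (φ : W →ₐ[ℚ] W) ≤ F := by
    rw [hF, IntermediateField.adjoin_map, IntermediateField.adjoin_le_iff]
    rintro _ ⟨y, hy, rfl⟩
    rw [Set.mem_singleton_iff] at hy
    subst hy
    show φ y ∈ _
    rw [h]
    exact pow_mem (IntermediateField.mem_adjoin_simple_self ℚ y) p
  have h2 : finrank ℚ (F.map (φ : W →ₐ[ℚ] W)) = finrank ℚ F :=
    (LinearEquiv.finrank_eq (F.equivMap (φ : W →ₐ[ℚ] W)).toLinearEquiv).symm
  have h3 : F.map (φ : W →ₐ[ℚ] W) = F := IntermediateField.eq_of_le_of_finrank_eq h1 h2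
  rw [← h3] at hx
  obtain ⟨y, hy, rfl⟩ := hx
  show φ.symm (φ y) ∈ F
  rw [AlgEquiv.symm_apply_apply]
  exact hy

theorem max_pow' {x : ℝ} (hx : 0 ≤ x) (p : ℕ) : max 1 (x ^ p) = (max 1 x) ^ p := by
  rcases le_total 1 x with h | h
  · rw [max_eq_right h, max_eq_right (one_le_pow₀ h)]
  · rw [max_eq_left h, max_eq_left (pow_le_one₀ hx h), one_pow]

theorem t_FROB : Pool.Agent.Y740.Z.S_F1 → Pool.Agent.Y740.Z.S_FROB := by
  intro hF1 W _ _ M ζ hM hζ φ p hp hφ D α hα γ i hγ v
  have hvp := na_nat v p
  have hP : 0 ≤ ∏ j, max 1 (v (α j)) := prod_nonneg fun _ _ => le_max_of_le_left zero_le_one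
  have hg0 : 0 ≤ v γ := apply_nonneg v γ
  rcases hvp.eq_or_lt with h1 | h1
  · rw [h1, one_mul]
    calc ∏ j, v (γ ^ p - α j) ≤ ∏ j : Fin D, (max 1 (v (γ ^ p)) * max 1 (v (α j))) := by
          refine prod_le_prod (fun _ _ => apply_nonneg v _) fun j _ => ?_
          refine (na_sub v _ _).trans (max_le ?_ ?_)
          · exact (le_max_right _ _).trans (le_mul_of_one_le_right
              (le_max_of_le_left zero_le_one) (le_max_left _ _))
          · exact (le_max_right _ _).trans (le_mul_of_one_le_left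
              (le_max_of_le_left zero_le_one) (le_max_left _ _))
      _ = _ := by rw [prod_mul_distrib, prod_const, card_univ, Fintype.card_fin]
  · set f : W[X] := ∏ j, (X - C (α j)) with hf
    have hfm : f.Monic := monic_prod_of_monic _ _ fun j _ => monic_X_sub_C _
    have hfd : f.natDegree = D := by
      rw [hf, natDegree_prod_of_monic _ _ fun j _ => monic_X_sub_C _]
      simp
    set h : ℕ → W := fun k => φ.symm (f.coeff k) with hh
    have hφh : ∀ k, φ (h k) = f.coeff k := fun k => φ.apply_symm_apply _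
    have hmem : ∀ k, h k ∈ IntermediateField.adjoin ℚ {ζ} := fun k => symm_mem φ hφ (hα k)
    have hsum : ∑ k ∈ range (D + 1), h k * γ ^ k = 0 := by
      apply φ.injective
      rw [map_sum, map_zero]
      have e1 : ∑ k ∈ range (D + 1), φ (h k * γ ^ k) = f.eval (α i) := by
        rw [eval_eq_sum_range, hfd]
        refine sum_congr rfl fun k _ => ?_
        rw [map_mul, map_pow, hφh, hγ]
      rw [e1, hf, eval_prod]
      exact prod_eq_zero (mem_univ i) (by simp)
    have hD : h D = 1 := by
      rw [hh]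
      show φ.symm (f.coeff D) = 1
      rw [← hfd, hfm.coeff_natDegree, map_one]
    obtain ⟨k0, hk0, hmax⟩ := exists_max_image (range (D + 1)) (fun k => v (h k))
      ⟨0, mem_range.2 (by omega)⟩
    have hvk0 : 1 ≤ v (h k0) := by
      have := hmax D (mem_range.2 (by omega))
      rwa [hD, map_one] at this
    have hk0ne : h k0 ≠ 0 := by
      intro h0
      rw [h0, map_zero] at hvk0
      exact absurd hvk0 (by norm_num)
    have hfk0 : f.coeff k0 ≠ 0 := by
      rw [← hφh]
      exact (map_ne_zero φ).2 hk0ne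
    set c : ℕ → W := fun k => h k / h k0 with hc
    have hcm : ∀ k, c k ∈ IntermediateField.adjoin ℚ {ζ} := fun k => div_mem (hmem k) (hmem k0)
    have hcv : ∀ k ∈ range (D + 1), v (c k) ≤ 1 := by
      intro k hk
      rw [hc]
      show v (h k / h k0) ≤ 1
      rw [map_div₀, div_le_one (by linarith)]
      exact hmax k hk
    have hcsum : ∑ k ∈ range (D + 1), c k * γ ^ k = 0 := by
      have : ∑ k ∈ range (D + 1), c k * γ ^ k = (∑ k ∈ range (D + 1), h k * γ ^ k) / h k0 := by
        rw [sum_div]
        refine sum_congr rfl fun k _ => ?_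
        rw [hc]
        ring
      rw [this, hsum, zero_div]
    have hφc : ∀ k, φ (c k) = f.coeff k / f.coeff k0 := by
      intro k
      rw [hc]
      show φ (h k / h k0) = _
      rw [map_div₀, hφh, hφh]
    set m : ℝ := max 1 (v γ) with hm
    have hm1 : 1 ≤ m := le_max_left _ _
    have hterm : ∀ k ∈ range (D + 1), v (c k * γ ^ k) ≤ m ^ D := by
      intro k hk
      rw [map_mul, map_pow]
      calc v (c k) * v γ ^ k ≤ 1 * m ^ k := by
            apply mul_le_mul (hcv k hk) (pow_le_pow_left₀ hg0 (le_max_right _ _) k) (by positivity)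
              zero_le_one
        _ = m ^ k := one_mul _
        _ ≤ m ^ D := pow_le_pow_right₀ hm1 (by have := mem_range.1 hk; omega)
    have hB := multi v hp (range (D + 1)) (fun k => c k * γ ^ k) (by positivity) hterm
    rw [hcsum, zero_pow hp.ne_zero, zero_sub, map_neg_eq_map] at hB
    have hA : v (∑ k ∈ range (D + 1), (φ (c k) - c k ^ p) * (γ ^ p) ^ k) ≤ v (p : W) * (m ^ D) ^ p := by
      refine na_sum v _ _ (mul_nonneg (apply_nonneg v _) (by positivity)) fun k hk => ?_
      rw [map_mul, map_pow, map_pow]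
      have e1 := hF1 W M ζ hM hζ φ p hp hφ v h1 (c k) (hcm k) (hcv k hk)
      refine mul_le_mul e1 ?_ (by positivity) (apply_nonneg v _)
      rw [← pow_mul, ← pow_mul]
      calc v γ ^ (p * k) ≤ m ^ (p * k) := pow_le_pow_left₀ hg0 (le_max_right _ _) _
        _ ≤ m ^ (D * p) := pow_le_pow_right₀ hm1 (by
            have := mem_range.1 hk
            rw [mul_comm]
            exact Nat.mul_le_mul_right p (by omega))
    have hS : v (∑ k ∈ range (D + 1), φ (c k) * (γ ^ p) ^ k) ≤ v (p : W) * (m ^ D) ^ p := by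
      have e1 : ∑ k ∈ range (D + 1), φ (c k) * (γ ^ p) ^ k =
          ∑ k ∈ range (D + 1), (φ (c k) - c k ^ p) * (γ ^ p) ^ k +
            ∑ k ∈ range (D + 1), (c k * γ ^ k) ^ p := by
        rw [← sum_add_distrib]
        refine sum_congr rfl fun k _ => ?_
        rw [mul_pow, ← pow_mul γ k p, ← pow_mul γ p k, mul_comm k p]
        ring
      rw [e1]
      exact (na v _ _).trans (max_le hA hB)
    have hfe : ∏ j, v (γ ^ p - α j) =
        v (f.coeff k0) * v (∑ k ∈ range (D + 1), φ (c k) * (γ ^ p) ^ k) := by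
      rw [← map_prod v, ← map_mul]
      congr 1
      have e1 : ∏ j, (γ ^ p - α j) = f.eval (γ ^ p) := by
        rw [hf, eval_prod]
        refine prod_congr rfl fun j _ => ?_
        simp
      rw [e1, eval_eq_sum_range, hfd, mul_sum]
      refine sum_congr rfl fun k _ => ?_
      rw [hφc]
      field_simp
    rw [hfe, map_pow, max_pow' hg0, ← hm]
    have e2 : (m ^ D) ^ p = (m ^ p) ^ D := by rw [← pow_mul, ← pow_mul, mul_comm]
    rw [e2] at hS
    calc v (f.coeff k0) * v (∑ k ∈ range (D + 1), φ (c k) * (γ ^ p) ^ k) ≤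
        (∏ j, max 1 (v (α j))) * (v (p : W) * (m ^ p) ^ D) := by
          apply mul_le_mul (coeff_le v univ α k0) hS (apply_nonneg v _) hP
      _ = _ := by ring

end Pool.Agent.Y261.ZF
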